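import Mathlib
open MeasureTheory Set
open scoped ENNReal NNReal ContDiff Topology

namespace Pool.Agent.H.MP_1d8377_an

variable {E : Type*} [NormedAddCommGroup E] [InnerProductSpace ℝ E] [FiniteDimensional ℝ E]
  [MeasurableSpace E] [BorelSpace E]

/-- Green's identity for one direction. -/
lemma green_dir {u φ : E → ℝ} (hu : ContDiff ℝ 2 u) (huc : HasCompactSupport u)
    (hφ : ContDiff ℝ 2 φ) (v : E) :
    ∫ x, u x * fderiv ℝ (fderiv ℝ φ) x v v = ∫ x, fderiv ℝ (fderiv ℝ u) x v v * φ x := by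
  have hu1 : ContDiff ℝ 1 (fderiv ℝ u) := hu.fderiv_right (by norm_num)
  have hφ1 : ContDiff ℝ 1 (fderiv ℝ φ) := hφ.fderiv_right (by norm_num)
  have hu2 : Continuous (fderiv ℝ (fderiv ℝ u)) := (hu1.continuous_fderiv (by norm_num))
  have hφ2 : Continuous (fderiv ℝ (fderiv ℝ φ)) := (hφ1.continuous_fderiv (by norm_num))
  have huv : ContDiff ℝ 1 (fun x => fderiv ℝ u x v) := hu1.clm_apply contDiff_const
  have hφv : ContDiff ℝ 1 (fun x => fderiv ℝ φ x v) := hφ1.clm_apply contDiff_const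
  have hdu : Differentiable ℝ (fderiv ℝ u) := hu1.differentiable (by norm_num)
  have hdφ : Differentiable ℝ (fderiv ℝ φ) := hφ1.differentiable (by norm_num)
  have e1 : ∀ x, fderiv ℝ (fun y => fderiv ℝ u y v) x v = fderiv ℝ (fderiv ℝ u) x v v := by
    intro x
    have := (hdu x).hasFDerivAt.clm_apply (hasFDerivAt_const v x)
    rw [this.fderiv]; simp
  have e2 : ∀ x, fderiv ℝ (fun y => fderiv ℝ φ y v) x v = fderiv ℝ (fderiv ℝ φ) x v v := by
    intro x
    have := (hdφ x).hasFDerivAt.clm_apply (hasFDerivAt_const v x)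
    rw [this.fderiv]; simp
  have hcu1 : HasCompactSupport (fun x => fderiv ℝ u x v) := huc.fderiv_apply ℝ v
  have hcu2 : HasCompactSupport (fun x => fderiv ℝ (fun y => fderiv ℝ u y v) x v) :=
    hcu1.fderiv_apply ℝ v
  have c1 : Continuous (fun x => fderiv ℝ (fun y => fderiv ℝ φ y v) x v) := by
    have : (fun x => fderiv ℝ (fun y => fderiv ℝ φ y v) x v) = fun x => fderiv ℝ (fderiv ℝ φ) x v v := by
      ext x; exact e2 x
    rw [this]; fun_prop
  have c2 : Continuous (fun x => fderiv ℝ (fun y => fderiv ℝ u y v) x v) := by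
    have : (fun x => fderiv ℝ (fun y => fderiv ℝ u y v) x v) = fun x => fderiv ℝ (fderiv ℝ u) x v v := by
      ext x; exact e1 x
    rw [this]; fun_prop
  have step1 : ∫ x, u x * fderiv ℝ (fun y => fderiv ℝ φ y v) x v
      = - ∫ x, fderiv ℝ u x v * fderiv ℝ φ x v := by
    apply integral_mul_fderiv_eq_neg_fderiv_mul_of_integrable
    · exact ((huv.continuous.mul hφv.continuous).integrable_of_hasCompactSupport hcu1.mul_right)
    · exact ((hu.continuous.mul c1).integrable_of_hasCompactSupport huc.mul_right)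
    · exact ((hu.continuous.mul hφv.continuous).integrable_of_hasCompactSupport huc.mul_right)
    · intro x _; exact hu.differentiable (by norm_num) x
    · intro x _; exact hφv.differentiable (by norm_num) x
  have step2 : ∫ x, fderiv ℝ u x v * fderiv ℝ φ x v
      = - ∫ x, fderiv ℝ (fun y => fderiv ℝ u y v) x v * φ x := by
    apply integral_mul_fderiv_eq_neg_fderiv_mul_of_integrable (f := fun x => fderiv ℝ u x v) (g := φ)
    · exact ((c2.mul hφ.continuous).integrable_of_hasCompactSupport hcu2.mul_right)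
    · exact ((huv.continuous.mul hφv.continuous).integrable_of_hasCompactSupport hcu1.mul_right)
    · exact ((huv.continuous.mul hφ.continuous).integrable_of_hasCompactSupport hcu1.mul_right)
    · intro x _; exact huv.differentiable (by norm_num) x
    · intro x _; exact hφ.differentiable (by norm_num) x
  simp_rw [e2] at step1
  simp_rw [e1] at step2
  rw [step1, step2, neg_neg]

lemma green {u φ : E → ℝ} (hu : ContDiff ℝ 2 u) (huc : HasCompactSupport u)
    (hφ : ContDiff ℝ 2 φ) :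
    ∫ x, u x * Laplacian.laplacian φ x = ∫ x, Laplacian.laplacian u x * φ x := by
  have hu1 : ContDiff ℝ 1 (fderiv ℝ u) := hu.fderiv_right (by norm_num)
  have hφ1 : ContDiff ℝ 1 (fderiv ℝ φ) := hφ.fderiv_right (by norm_num)
  have hu2 : Continuous (fderiv ℝ (fderiv ℝ u)) := (hu1.continuous_fderiv (by norm_num))
  have hφ2 : Continuous (fderiv ℝ (fderiv ℝ φ)) := (hφ1.continuous_fderiv (by norm_num))
  have hcu1 : HasCompactSupport (fderiv ℝ u) := huc.fderiv ℝ
  have hcu2 : HasCompactSupport (fderiv ℝ (fderiv ℝ u)) := hcu1.fderiv ℝ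
  let b := stdOrthonormalBasis ℝ E
  have hφe : ∀ x, Laplacian.laplacian φ x = ∑ i, fderiv ℝ (fderiv ℝ φ) x (b i) (b i) := by
    intro x
    rw [InnerProductSpace.laplacian_eq_iteratedFDeriv_orthonormalBasis φ b]
    simp [iteratedFDeriv_two_apply]
  have hue : ∀ x, Laplacian.laplacian u x = ∑ i, fderiv ℝ (fderiv ℝ u) x (b i) (b i) := by
    intro x
    rw [InnerProductSpace.laplacian_eq_iteratedFDeriv_orthonormalBasis u b]
    simp [iteratedFDeriv_two_apply]
  simp_rw [hφe, hue, Finset.mul_sum, Finset.sum_mul]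
  rw [integral_finsetSum, integral_finsetSum]
  · exact Finset.sum_congr rfl fun i _ => green_dir hu huc hφ (b i)
  · intro i _
    apply Continuous.integrable_of_hasCompactSupport
    · have := hφ.continuous
      fun_prop
    · apply HasCompactSupport.mul_right
      have := hcu2.comp_left (g := fun L : E →L[ℝ] E →L[ℝ] ℝ => L (b i) (b i)) (by simp)
      exact this
  · intro i _
    apply Continuous.integrable_of_hasCompactSupport
    · have := hu.continuous
      fun_prop
    · exact huc.mul_right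


omit [MeasurableSpace E] [BorelSpace E] in
/-- The Laplacian of a radial profile. -/
lemma laplacian_profile {G G1 h : ℝ → ℝ} (hG : ∀ s, HasDerivAt G (G1 s) s)
    (hG1 : ∀ s, HasDerivAt G1 (h s) s) (x0 : E) (r : ℝ) (x : E) :
    Laplacian.laplacian (fun y : E => G (1 - r * ‖y - x0‖ ^ 2)) x
      = h (1 - r * ‖x - x0‖ ^ 2) * (4 * r ^ 2 * ‖x - x0‖ ^ 2)
        - G1 (1 - r * ‖x - x0‖ ^ 2) * (2 * r * Module.finrank ℝ E) := by
  have hs : ∀ y : E, HasFDerivAt (fun y : E => 1 - r * ‖y - x0‖ ^ 2)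
      ((-(2 * r)) • innerSL ℝ (y - x0)) y := by
    intro y
    have h1 : HasFDerivAt (fun y : E => y - x0) (ContinuousLinearMap.id ℝ E) y :=
      (hasFDerivAt_id y).sub_const x0
    have h2 := (h1.norm_sq).const_mul r
    have h3 := h2.const_sub 1
    refine h3.congr_fderiv ?_
    ext z
    simp
    ring
  have hu : ∀ y : E, HasFDerivAt (fun y : E => G (1 - r * ‖y - x0‖ ^ 2))
      ((G1 (1 - r * ‖y - x0‖ ^ 2) * (-(2 * r))) • innerSL ℝ (y - x0)) y := by
    intro y
    have := (hG (1 - r * ‖y - x0‖ ^ 2)).comp_hasFDerivAt y (hs y)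
    refine this.congr_fderiv ?_
    rw [smul_smul]
  have hfd : fderiv ℝ (fun y : E => G (1 - r * ‖y - x0‖ ^ 2))
      = fun y => (G1 (1 - r * ‖y - x0‖ ^ 2) * (-(2 * r))) • innerSL ℝ (y - x0) := by
    ext1 y; exact (hu y).fderiv
  let B : E →L[ℝ] E →L[ℝ] ℝ := innerSL ℝ
  have hu2 : HasFDerivAt (fun y => (G1 (1 - r * ‖y - x0‖ ^ 2) * (-(2 * r))) • B (y - x0))
      ((G1 (1 - r * ‖x - x0‖ ^ 2) * (-(2 * r))) • B +
        ((-(2 * r)) • (h (1 - r * ‖x - x0‖ ^ 2)) • ((-(2 * r)) • B (x - x0))).smulRight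
          (B (x - x0))) x := by
    have a1 : HasFDerivAt (fun y : E => G1 (1 - r * ‖y - x0‖ ^ 2) * (-(2 * r)))
        ((-(2 * r)) • (h (1 - r * ‖x - x0‖ ^ 2)) • ((-(2 * r)) • B (x - x0))) x := by
      exact ((hG1 (1 - r * ‖x - x0‖ ^ 2)).comp_hasFDerivAt x (hs x)).mul_const (-(2*r))
    have a2 : HasFDerivAt (fun y : E => B (y - x0)) B x := by
      have h1 : HasFDerivAt (fun y : E => y - x0) (ContinuousLinearMap.id ℝ E) x :=
        (hasFDerivAt_id x).sub_const x0
      have := (B.hasFDerivAt (x := x - x0)).comp x h1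
      refine this.congr_fderiv ?_
      ext; rfl
    exact a1.smul a2
  let b := stdOrthonormalBasis ℝ E
  rw [InnerProductSpace.laplacian_eq_iteratedFDeriv_orthonormalBasis _ b]
  simp only [iteratedFDeriv_two_apply]
  rw [hfd]
  change ∑ i, (fderiv ℝ (fun y => (G1 (1 - r * ‖y - x0‖ ^ 2) * (-(2 * r))) • B (y - x0)) x
    (![b i, b i] 0)) (![b i, b i] 1) = _
  rw [hu2.fderiv]
  have hBa : ∀ y z : E, B y z = inner ℝ y z := fun y z => rfl
  simp only [hBa, Matrix.cons_val_zero, Matrix.cons_val_one, _root_.add_apply,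
    _root_.smul_apply, ContinuousLinearMap.smulRight_apply, smul_eq_mul]
  have hb1 : ∀ i, inner ℝ (b i) (b i) = (1 : ℝ) := fun i => by
    rw [real_inner_self_eq_norm_sq, b.orthonormal.1 i]; norm_num
  have hb2 : ∑ i, inner ℝ (x - x0) (b i) ^ 2 = ‖x - x0‖ ^ 2 := by
    have := b.sum_sq_norm_inner_left (x - x0)
    simpa [sq_abs] using this
  simp only [hb1]
  have : ∀ i, -(2 * r) * (h (1 - r * ‖x - x0‖ ^ 2) * (-(2 * r) * inner ℝ (x - x0) (b i))) *
      inner ℝ (x - x0) (b i) = (4 * r ^ 2 * h (1 - r * ‖x - x0‖ ^ 2)) * inner ℝ (x - x0) (b i) ^ 2 := by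
    intro i; ring
  simp only [this]
  rw [Finset.sum_add_distrib, ← Finset.mul_sum, ← Finset.mul_sum, hb2]
  simp
  ring

end Pool.Agent.H.MP_1d8377_an
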