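import Mathlib
open MeasureTheory Set Filter
open scoped ENNReal NNReal ContDiff Topology

namespace Pool.Agent.H.MP_1d8377_an

/-- A smooth bump on the line: `1` on `[-1/2,1/2]`, supported in `(-1,1)`. -/
noncomputable def bump : ContDiffBump (0 : ℝ) := ⟨1 / 2, 1, by norm_num, by norm_num⟩

lemma bump_eq_one {t : ℝ} (ht : |t| ≤ 1 / 2) : bump t = 1 := by
  apply ContDiffBump.one_of_mem_closedBall
  simpa [bump, Real.dist_eq] using ht

lemma bump_eq_zero {t : ℝ} (ht : 1 ≤ |t|) : bump t = 0 := by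
  apply ContDiffBump.zero_of_le_dist
  simpa [bump, Real.dist_eq] using ht

lemma bump_deriv_bound (m : ℕ) : ∃ C : ℝ, 0 ≤ C ∧ ∀ t, |iteratedDeriv m bump t| ≤ C := by
  have hc : Continuous (iteratedDeriv m bump) :=
    (bump.contDiff (n := m)).continuous_iteratedDeriv m le_rfl
  have hs : HasCompactSupport (iteratedDeriv m bump) := by
    have := (bump.hasCompactSupport).iteratedFDeriv (𝕜 := ℝ) m
    have h2 : iteratedDeriv m bump = fun x => iteratedFDeriv ℝ m bump x (fun _ => 1) := by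
      ext x; rw [iteratedDeriv_eq_iteratedFDeriv]
    rw [h2]
    exact this.comp_left (g := fun L => L (fun _ => (1 : ℝ))) rfl
  obtain ⟨C, hC⟩ := hs.exists_bound_of_continuous hc
  exact ⟨C, (norm_nonneg _).trans (hC 0), fun t => by simpa using hC t⟩

variable (c ε η : ℕ → ℝ)

/-- the thin train of bumps -/
noncomputable def train (s : ℝ) : ℝ := ∑' k, η k * bump ((ε k)⁻¹ * (s - c k))

variable {c ε η}

lemma train_contDiff (hε : ∀ k, 0 < ε k) (hη : ∀ k, 0 < η k)
    (hsm : ∀ m : ℕ, Summable (fun k => η k * ((ε k)⁻¹) ^ m)) : ContDiff ℝ ∞ (train c ε η) := by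
  choose C hC0 hC using bump_deriv_bound
  have hb : ∀ n : ℕ, ContDiff ℝ n bump := fun n => bump.contDiff
  apply contDiff_tsum (v := fun m k => C m * (η k * ((ε k)⁻¹) ^ m))
  · intro i
    have hb : ContDiff ℝ ((⊤ : ℕ∞) : WithTop ℕ∞) bump := bump.contDiff
    exact contDiff_const.mul (hb.comp (contDiff_const.mul (contDiff_id.sub contDiff_const)))
  · intro m _
    exact (hsm m).mul_left _
  · intro m k x _
    rw [norm_iteratedFDeriv_eq_norm_iteratedDeriv]
    have e1 : iteratedDeriv m (fun s => η k * bump ((ε k)⁻¹ * (s - c k))) x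
        = η k * (((ε k)⁻¹) ^ m * iteratedDeriv m bump ((ε k)⁻¹ * (x - c k))) := by
      rw [iteratedDeriv_const_mul_field]
      congr 1
      have h1 := iteratedDeriv_comp_sub_const m (fun y => bump ((ε k)⁻¹ * y)) (c k)
      have h2 := iteratedDeriv_comp_const_mul (hb m) ((ε k)⁻¹)
      rw [h1]
      simp only [h2]
    rw [e1, Real.norm_eq_abs, abs_mul, abs_mul, abs_of_pos (hη k),
      abs_of_nonneg (pow_nonneg (inv_nonneg.2 (hε k).le) m)]
    have := hC m ((ε k)⁻¹ * (x - c k))
    have h3 : 0 ≤ ((ε k)⁻¹) ^ m := pow_nonneg (inv_nonneg.2 (hε k).le) m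
    calc η k * (((ε k)⁻¹) ^ m * |iteratedDeriv m bump ((ε k)⁻¹ * (x - c k))|)
        ≤ η k * (((ε k)⁻¹) ^ m * C m) := by
          gcongr
          exact (hη k).le
      _ = C m * (η k * ((ε k)⁻¹) ^ m) := by ring

lemma train_summable (hη : ∀ k, 0 < η k)
    (hsm : Summable η) (s : ℝ) : Summable (fun k => η k * bump ((ε k)⁻¹ * (s - c k))) := by
  apply Summable.of_nonneg_of_le _ _ hsm
  · intro k; exact mul_nonneg (hη k).le bump.nonneg
  · intro k; exact mul_le_of_le_one_right (hη k).le bump.le_one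

lemma train_nonneg (hη : ∀ k, 0 < η k) (s : ℝ) : 0 ≤ train c ε η s :=
  tsum_nonneg fun k => mul_nonneg (hη k).le bump.nonneg

lemma train_term_zero (hε : ∀ k, 0 < ε k) {s : ℝ} {k : ℕ} (hs : s ≤ c k - ε k ∨ c k + ε k ≤ s) :
    η k * bump ((ε k)⁻¹ * (s - c k)) = 0 := by
  rw [bump_eq_zero, mul_zero]
  rw [abs_mul, abs_of_pos (inv_pos.2 (hε k)), ← div_eq_inv_mul, le_div_iff₀ (hε k), one_mul,
    le_abs]
  rcases hs with hs | hs
  · right; linarith
  · left; linarith

lemma train_zero_of_nonpos (hε : ∀ k, 0 < ε k) (hεc : ∀ k, ε k ≤ c k) {s : ℝ} (hs : s ≤ 0) :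
    train c ε η s = 0 := by
  unfold train
  have : ∀ k, η k * bump ((ε k)⁻¹ * (s - c k)) = 0 := fun k =>
    train_term_zero hε (Or.inl (by linarith [hεc k]))
  simp [this]

lemma train_ge (hε : ∀ k, 0 < ε k) (hη : ∀ k, 0 < η k) (hsm : Summable η) {s : ℝ} {k : ℕ}
    (hs : |s - c k| ≤ ε k / 2) : η k ≤ train c ε η s := by
  have h1 : η k * bump ((ε k)⁻¹ * (s - c k)) = η k := by
    rw [bump_eq_one, mul_one]
    rw [abs_mul, abs_of_pos (inv_pos.2 (hε k)), ← div_eq_inv_mul, div_le_iff₀ (hε k)]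
    linarith
  have h2 := (train_summable (c := c) (ε := ε) hη hsm s).le_tsum k
    (fun j _ => mul_nonneg (hη j).le bump.nonneg)
  rw [h1] at h2
  exact h2

lemma gap_lt {hc : ∀ k, 0 < c k} (hε : ∀ k, 0 < ε k)
    (hgap : ∀ k, c (k + 1) + ε (k + 1) + c k / 4 ≤ c k - ε k) {j k : ℕ} (hjk : j < k) :
    c k + ε k < c j - ε j := by
  induction k with
  | zero => omega
  | succ k ih =>
    rcases Nat.lt_succ_iff_lt_or_eq.1 hjk with h | h
    · have := ih h
      have h2 := hgap k
      have h3 := hc k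
      have h4 := hε k
      linarith
    · subst h
      have h2 := hgap j
      have h3 := hc j
      linarith

lemma train_le_of_ne (hε : ∀ k, 0 < ε k) (hη : ∀ k, 0 < η k) (hc : ∀ k, 0 < c k)
    (hgap : ∀ k, c (k + 1) + ε (k + 1) + c k / 4 ≤ c k - ε k) {s : ℝ}
    (hs : train c ε η s ≠ 0) :
    ∃ k, c k - ε k < s ∧ s < c k + ε k ∧ train c ε η s ≤ η k := by
  have h1 : ∃ k, η k * bump ((ε k)⁻¹ * (s - c k)) ≠ 0 := by
    by_contra h
    push Not at h
    apply hs
    unfold train
    simp [h]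
  obtain ⟨k, hk⟩ := h1
  have hk1 : c k - ε k < s := by
    by_contra h
    exact hk (train_term_zero hε (Or.inl (not_lt.1 h)))
  have hk2 : s < c k + ε k := by
    by_contra h
    exact hk (train_term_zero hε (Or.inr (not_lt.1 h)))
  refine ⟨k, hk1, hk2, ?_⟩
  have h2 : train c ε η s = η k * bump ((ε k)⁻¹ * (s - c k)) := by
    unfold train
    apply tsum_eq_single
    intro j hj
    apply train_term_zero hε
    rcases lt_or_gt_of_ne hj with h | h
    · left
      have := gap_lt (hc := hc) hε hgap h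
      linarith
    · right
      have := gap_lt (hc := hc) hε hgap h
      linarith
  rw [h2]
  exact mul_le_of_le_one_right (hη k).le bump.le_one

/-- The one-dimensional profile. -/
lemma exists_profile (hε : ∀ k, 0 < ε k) (hη : ∀ k, 0 < η k) (hc : ∀ k, 0 < c k)
    (hεc : ∀ k, ε k ≤ c k)
    (hgap : ∀ k, c (k + 1) + ε (k + 1) + c k / 4 ≤ c k - ε k)
    (hlim : Tendsto c atTop (𝓝 0))
    (hsm : ∀ m : ℕ, Summable (fun k => η k * ((ε k)⁻¹) ^ m)) :
    ∃ G G1 h : ℝ → ℝ, ContDiff ℝ ∞ G ∧ (∀ s, HasDerivAt G (G1 s) s) ∧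
      (∀ s, HasDerivAt G1 (h s) s) ∧ Continuous h ∧ (∀ s ≤ 0, G s = 0) ∧ (∀ s > 0, 0 < G s) ∧
      (∀ s, 0 ≤ s → 0 ≤ G1 s) ∧ (∀ s ≤ 0, G1 s = 0) ∧ (∀ s, 0 ≤ h s) ∧ (∀ s ≤ 0, h s = 0) ∧
      (∀ s > 0, h s ≠ 0 → ∃ k, c k - ε k < s ∧ s < c k + ε k ∧
        h s ≤ (η k / (c k / 4 * (η (k + 1) * ε (k + 1)))) * G s) := by
  have hsm0 : Summable η := by simpa using hsm 0
  set h : ℝ → ℝ := train c ε η with hh
  have hcd : ContDiff ℝ ∞ h := train_contDiff hε hη hsm
  have hcont : Continuous h := hcd.continuous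
  have hnn : ∀ s, 0 ≤ h s := fun s => train_nonneg hη s
  have hz : ∀ s ≤ 0, h s = 0 := fun s hs => train_zero_of_nonpos hε hεc hs
  set G1 : ℝ → ℝ := fun s => ∫ t in (0 : ℝ)..s, h t with hG1
  have hG1d : ∀ s, HasDerivAt G1 (h s) s := fun s =>
    intervalIntegral.integral_hasDerivAt_right (hcont.intervalIntegrable _ _)
      hcont.stronglyMeasurable.stronglyMeasurableAtFilter hcont.continuousAt
  have hG1c : Continuous G1 := continuous_iff_continuousAt.2 fun s => (hG1d s).continuousAt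
  set G : ℝ → ℝ := fun s => ∫ t in (0 : ℝ)..s, G1 t with hG
  have hGd : ∀ s, HasDerivAt G (G1 s) s := fun s =>
    intervalIntegral.integral_hasDerivAt_right (hG1c.intervalIntegrable _ _)
      hG1c.stronglyMeasurable.stronglyMeasurableAtFilter hG1c.continuousAt
  have hG1cd : ContDiff ℝ ∞ G1 := by
    rw [contDiff_infty_iff_deriv]
    refine ⟨fun s => (hG1d s).differentiableAt, ?_⟩
    have : deriv G1 = h := by ext s; exact (hG1d s).deriv
    rwa [this]
  have hGcd : ContDiff ℝ ∞ G := by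
    rw [contDiff_infty_iff_deriv]
    refine ⟨fun s => (hGd s).differentiableAt, ?_⟩
    have : deriv G = G1 := by ext s; exact (hGd s).deriv
    rwa [this]
  have hG1mono : Monotone G1 := monotone_of_deriv_nonneg (fun s => (hG1d s).differentiableAt)
    (fun s => by rw [(hG1d s).deriv]; exact hnn s)
  have hG10 : G1 0 = 0 := by simp [hG1]
  have hG0 : G 0 = 0 := by simp [hG]
  have hG1z : ∀ s ≤ 0, G1 s = 0 := by
    intro s hs
    have : G1 s = ∫ t in (0 : ℝ)..s, (0 : ℝ) := by
      rw [hG1]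
      apply intervalIntegral.integral_congr
      intro t ht
      rw [uIcc_of_ge hs] at ht
      exact hz t ht.2
    simpa using this
  have hGz : ∀ s ≤ 0, G s = 0 := by
    intro s hs
    have : G s = ∫ t in (0 : ℝ)..s, (0 : ℝ) := by
      rw [hG]
      apply intervalIntegral.integral_congr
      intro t ht
      rw [uIcc_of_ge hs] at ht
      exact hG1z t ht.2
    simpa using this
  have hG1nn : ∀ s, 0 ≤ G1 s := by
    intro s
    rcases le_total s 0 with hs | hs
    · rw [hG1z s hs]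
    · rw [← hG10]; exact hG1mono hs
  have hGmono : Monotone G := monotone_of_deriv_nonneg (fun s => (hGd s).differentiableAt)
    (fun s => by rw [(hGd s).deriv]; exact hG1nn s)
  -- lower bound for G1
  have hG1lb : ∀ k, ∀ s, c k + ε k / 2 ≤ s → η k * ε k ≤ G1 s := by
    intro k s hs
    have h1 : G1 (c k + ε k / 2) - G1 (c k - ε k / 2) = ∫ t in (c k - ε k / 2)..(c k + ε k / 2), h t := by
      rw [hG1]
      exact intervalIntegral.integral_interval_sub_left (hcont.intervalIntegrable _ _)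
        (hcont.intervalIntegrable _ _)
    have h2 : ∫ t in (c k - ε k / 2)..(c k + ε k / 2), η k ≤
        ∫ t in (c k - ε k / 2)..(c k + ε k / 2), h t := by
      apply intervalIntegral.integral_mono_on (by linarith [hε k])
        (by simp) (hcont.intervalIntegrable _ _)
      intro t ht
      apply train_ge hε hη hsm0
      rw [abs_le]
      constructor <;> linarith [ht.1, ht.2]
    have h3 : ∫ t in (c k - ε k / 2)..(c k + ε k / 2), η k = η k * ε k := by
      simp; ring
    have h4 := hG1nn (c k - ε k / 2)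
    have h5 := hG1mono hs
    linarith
  have hGlb : ∀ k, ∀ s, c k + ε k / 2 ≤ s → (s - (c k + ε k / 2)) * (η k * ε k) ≤ G s := by
    intro k s hs
    have h1 : G s - G (c k + ε k / 2) = ∫ t in (c k + ε k / 2)..s, G1 t := by
      rw [hG]
      exact intervalIntegral.integral_interval_sub_left (hG1c.intervalIntegrable _ _)
        (hG1c.intervalIntegrable _ _)
    have h2 : ∫ t in (c k + ε k / 2)..s, (η k * ε k) ≤ ∫ t in (c k + ε k / 2)..s, G1 t := by
      apply intervalIntegral.integral_mono_on hs (by simp) (hG1c.intervalIntegrable _ _)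
      intro t ht
      exact hG1lb k t ht.1
    have h3 : ∫ t in (c k + ε k / 2)..s, (η k * ε k) = (s - (c k + ε k / 2)) * (η k * ε k) := by
      simp; ring
    have h4 : 0 ≤ G (c k + ε k / 2) := by
      rw [← hG0]; apply hGmono; linarith [hc k, hε k]
    linarith
  refine ⟨G, G1, h, hGcd, hGd, hG1d, hcont, hGz, ?_, fun s _ => hG1nn s, hG1z, hnn, hz, ?_⟩
  · intro s hs
    obtain ⟨k, hk⟩ : ∃ k, c k + c k / 2 < s := by
      have : Tendsto (fun k => c k + c k / 2) atTop (𝓝 (0 + 0 / 2)) := hlim.add (hlim.div_const 2)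
      simp only [zero_div, add_zero] at this
      exact ((tendsto_order.1 this).2 s hs).exists
    have h1 := hGlb k s (by linarith [hεc k])
    have h2 : 0 < (s - (c k + ε k / 2)) * (η k * ε k) := by
      apply mul_pos
      · linarith [hεc k]
      · exact mul_pos (hη k) (hε k)
    linarith
  · intro s hs hne
    obtain ⟨k, hk1, hk2, hk3⟩ := train_le_of_ne hε hη hc hgap hne
    refine ⟨k, hk1, hk2, hk3.trans ?_⟩
    have h1 := hgap k
    have h2 := hε (k + 1)
    have h3 := hGlb (k + 1) s (by linarith [hc k])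
    have h4 : c k / 4 * (η (k + 1) * ε (k + 1)) ≤ G s := by
      refine le_trans ?_ h3
      apply mul_le_mul_of_nonneg_right _ (mul_pos (hη _) (hε _)).le
      linarith
    have h5 : 0 < c k / 4 * (η (k + 1) * ε (k + 1)) := by
      have := hc k; have := hη (k+1); positivity
    rw [div_mul_eq_mul_div, le_div_iff₀ h5]
    exact mul_le_mul_of_nonneg_left h4 (hη k).le

end Pool.Agent.H.MP_1d8377_an
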