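import Mathlib
open MeasureTheory Set Filter
open scoped ENNReal NNReal ContDiff Topology

namespace Pool.Agent.H.MP_1d8377_an

/-- centres -/
noncomputable def cc (k : ℕ) : ℝ := Real.exp (-((k : ℝ) + 2))
/-- widths -/
noncomputable def ee (k : ℕ) : ℝ := Real.exp (-((k : ℝ) + 3) ^ 2)
/-- heights -/
noncomputable def hh (k : ℕ) : ℝ := Real.exp (-(((k : ℝ) + 3) ^ 2 * √((k : ℝ) + 3)))

lemma cc_pos (k : ℕ) : 0 < cc k := Real.exp_pos _
lemma ee_pos (k : ℕ) : 0 < ee k := Real.exp_pos _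
lemma hh_pos (k : ℕ) : 0 < hh k := Real.exp_pos _

lemma exp_neg_one_le : Real.exp (-1) ≤ 1 / 2 := by
  rw [Real.exp_neg, inv_eq_one_div]
  apply one_div_le_one_div_of_le (by norm_num)
  have := Real.add_one_le_exp (1 : ℝ)
  linarith

lemma exp_neg_seven_le : Real.exp (-7) ≤ 1 / 8 := by
  rw [Real.exp_neg, inv_eq_one_div]
  apply one_div_le_one_div_of_le (by norm_num)
  have := Real.add_one_le_exp (7 : ℝ)
  linarith

lemma ee_le (k : ℕ) : ee k ≤ cc k / 8 := by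
  have hk : (0 : ℝ) ≤ k := Nat.cast_nonneg k
  have h1 : ee k ≤ Real.exp (-((k : ℝ) + 2)) * Real.exp (-7) := by
    rw [ee, ← Real.exp_add]
    apply Real.exp_le_exp.2
    nlinarith
  calc ee k ≤ _ := h1
    _ ≤ Real.exp (-((k : ℝ) + 2)) * (1 / 8) := by
      gcongr; exact exp_neg_seven_le
    _ = cc k / 8 := by rw [cc]; ring

lemma cc_succ (k : ℕ) : cc (k + 1) ≤ cc k / 2 := by
  have h1 : cc (k + 1) = cc k * Real.exp (-1) := by
    rw [cc, cc, ← Real.exp_add]; congr 1; push_cast; ring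
  rw [h1]
  have := mul_le_mul_of_nonneg_left exp_neg_one_le (cc_pos k).le
  linarith

lemma gap (k : ℕ) : cc (k + 1) + ee (k + 1) + cc k / 4 ≤ cc k - ee k := by
  have h1 := ee_le k
  have h2 := ee_le (k + 1)
  have h3 := cc_succ k
  have h4 := cc_pos k
  linarith

lemma cc_add_ee_le (k : ℕ) : cc k + ee k ≤ 1 / 2 := by
  have h0 : cc k ≤ 1 / 4 := by
    have hk : (0 : ℝ) ≤ k := Nat.cast_nonneg k
    have : cc k ≤ Real.exp (-1) * Real.exp (-1) := by
      rw [cc, ← Real.exp_add]; apply Real.exp_le_exp.2; linarith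
    have h2 := mul_le_mul exp_neg_one_le exp_neg_one_le (Real.exp_pos _).le (by norm_num)
    linarith
  have := ee_le k
  linarith

lemma cc_tendsto : Tendsto cc atTop (𝓝 0) := by
  have h1 : Tendsto (fun k : ℕ => (k : ℝ) + 2) atTop atTop :=
    tendsto_atTop_add_const_right _ _ tendsto_natCast_atTop_atTop
  exact Real.tendsto_exp_neg_atTop_nhds_zero.comp h1

lemma summable_exp_neg_nat : Summable (fun k : ℕ => Real.exp (-(k : ℝ))) :=
  Real.summable_exp_neg_nat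

lemma hh_summable (m : ℕ) : Summable (fun k => hh k * ((ee k)⁻¹) ^ m) := by
  apply Summable.of_norm_bounded_eventually_nat (g := fun k : ℕ => Real.exp (-(k : ℝ)))
    summable_exp_neg_nat
  filter_upwards [eventually_ge_atTop ((m + 1) ^ 2)] with k hk
  have e1 : hh k * ((ee k)⁻¹) ^ m
      = Real.exp (-(((k : ℝ) + 3) ^ 2 * √((k : ℝ) + 3)) + m * ((k : ℝ) + 3) ^ 2) := by
    rw [hh, ee, ← Real.exp_neg, ← Real.exp_nat_mul, ← Real.exp_add]
    congr 1; ring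
  rw [e1, Real.norm_eq_abs, Real.abs_exp]
  apply Real.exp_le_exp.2
  have hk' : ((m : ℝ) + 1) ^ 2 ≤ (k : ℝ) := by exact_mod_cast hk
  have hs : (m : ℝ) + 1 ≤ √((k : ℝ) + 3) := by
    apply Real.le_sqrt_of_sq_le; linarith
  have hk0 : (0 : ℝ) ≤ k := Nat.cast_nonneg k
  nlinarith [mul_le_mul_of_nonneg_left hs (sq_nonneg ((k : ℝ) + 3))]

lemma quot_eq (k : ℕ) : hh k / (cc k / 4 * (hh (k + 1) * ee (k + 1)))
    = 4 * Real.exp (((k : ℝ) + 2) + ((k : ℝ) + 4) ^ 2 +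
      (((k : ℝ) + 4) ^ 2 * √((k : ℝ) + 4) - ((k : ℝ) + 3) ^ 2 * √((k : ℝ) + 3))) := by
  have h4 : ((k + 1 : ℕ) : ℝ) + 3 = (k : ℝ) + 4 := by push_cast; ring
  rw [hh, cc, hh, ee, h4, div_eq_iff]
  · rw [mul_comm (Real.exp _ / 4), ← Real.exp_add]
    have : ∀ a b c : ℝ, 4 * a * (b * (c / 4)) = a * b * c := by intros; ring
    rw [this, ← Real.exp_add, ← Real.exp_add]
    congr 1; ring
  · positivity

lemma D_le {K : ℝ} (hK : 1 ≤ K) :
    (K + 1) ^ 2 * √(K + 1) - K ^ 2 * √K ≤ 5 * (K * √K) := by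
  set y := √K with hy
  have hy0 : 0 ≤ y := Real.sqrt_nonneg _
  have hy1 : 1 ≤ y := by rw [hy]; exact Real.one_le_sqrt.2 hK
  have hK2 : K = y ^ 2 := (Real.sq_sqrt (by linarith)).symm
  have h1 : √(K + 1) ≤ y + 1 / (2 * y) := by
    rw [Real.sqrt_le_left (by positivity)]
    have : (y + 1 / (2 * y)) ^ 2 = y ^ 2 + 1 + (1 / (2 * y)) ^ 2 := by field_simp; ring
    rw [this, hK2]; nlinarith [sq_nonneg (1 / (2 * y))]
  have h2 : (K + 1) ^ 2 * √(K + 1) ≤ (K + 1) ^ 2 * (y + 1 / (2 * y)) := by gcongr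
  have h3 : (K + 1) ^ 2 * (1 / (2 * y)) ≤ 2 * K * y := by
    rw [mul_one_div, div_le_iff₀ (by positivity)]
    rw [hK2] at hK ⊢
    nlinarith [mul_nonneg (sub_nonneg.2 hK) (sub_nonneg.2 hK)]
  rw [hK2] at *
  nlinarith

lemma final_summable {α : ℝ} (hα0 : 0 < α) (hα1 : α < 1) :
    Summable (fun k => ee k * (hh k / (cc k / 4 * (hh (k + 1) * ee (k + 1)))) ^ α) := by
  apply Summable.of_norm_bounded_eventually_nat (g := fun k : ℕ => 4 ^ α * Real.exp (-(k : ℝ)))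
    (summable_exp_neg_nat.mul_left _)
  obtain ⟨N, hN⟩ := exists_nat_ge ((9 / (1 - α)) ^ 2)
  filter_upwards [eventually_ge_atTop N] with k hk
  rw [quot_eq, Real.mul_rpow (by norm_num) (Real.exp_pos _).le, ← Real.exp_mul,
    Real.norm_of_nonneg (by have := ee_pos k; positivity), mul_left_comm, ee, ← Real.exp_add]
  apply mul_le_mul_of_nonneg_left _ (by positivity)
  apply Real.exp_le_exp.2
  set K : ℝ := (k : ℝ) + 3 with hK
  have hk0 : (0 : ℝ) ≤ k := Nat.cast_nonneg k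
  have hK3 : 3 ≤ K := by rw [hK]; linarith
  have e1 : (k : ℝ) + 4 = K + 1 := by rw [hK]; ring
  have e2 : (k : ℝ) + 2 = K - 1 := by rw [hK]; ring
  have e3 : (k : ℝ) = K - 3 := by rw [hK]; ring
  rw [e1, e2]
  have hs : 9 / (1 - α) ≤ √K := by
    apply Real.le_sqrt_of_sq_le
    have : (N : ℝ) ≤ (k : ℝ) := by exact_mod_cast hk
    linarith
  have h1α : 0 < 1 - α := by linarith
  rw [div_le_iff₀ h1α] at hs
  have hD := D_le (K := K) (by linarith)
  have hy1 : 1 ≤ √K := Real.one_le_sqrt.2 (by linarith)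
  have hyy : √K * √K = K := Real.mul_self_sqrt (by linarith)
  set y := √K
  set D := (K + 1) ^ 2 * √(K + 1) - K ^ 2 * y
  have h5 : (K - 1 + (K + 1) ^ 2 + D) * α ≤ (K - 1 + (K + 1) ^ 2 + 5 * (K * y)) * α := by
    gcongr
  have h6 : (K - 1 + (K + 1) ^ 2 + 5 * (K * y)) * α ≤ α * K ^ 2 + 3 * K + 5 * (K * y) := by
    have h7 : K - 1 + (K + 1) ^ 2 + 5 * (K * y) = K ^ 2 + (3 * K + 5 * (K * y)) := by ring
    rw [h7, add_mul]
    have h8 : (3 * K + 5 * (K * y)) * α ≤ (3 * K + 5 * (K * y)) * 1 := by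
      apply mul_le_mul_of_nonneg_left hα1.le (by positivity)
    linarith
  have h9 : 9 * (K * y) ≤ (1 - α) * K ^ 2 := by
    have : 9 * (K * y) ≤ (y * (1 - α)) * (K * y) := by
      apply mul_le_mul_of_nonneg_right hs (by positivity)
    calc _ ≤ _ := this
      _ = (1 - α) * K * (y * y) := by ring
      _ = _ := by rw [hyy]; ring
  have h10 : K ≤ K * y := by nlinarith
  rw [e3]
  nlinarith

end Pool.Agent.H.MP_1d8377_an
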