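import Mathlib
open MeasureTheory Set
open scoped ENNReal NNReal ContDiff Topology

namespace Pool.Agent.H.MP_1d8377_an

variable {E : Type*} [NormedAddCommGroup E] [InnerProductSpace ℝ E] [FiniteDimensional ℝ E]
  [MeasurableSpace E] [BorelSpace E]

lemma pow_sub_pow_le_mul {x y : ℝ} (hy : 0 ≤ y) (hyx : y ≤ x) (hx : x ≤ 1) (n : ℕ) :
    x ^ n - y ^ n ≤ n * (x - y) := by
  induction n with
  | zero => simp
  | succ n ih =>
    have h1 : x ^ (n + 1) - y ^ (n + 1) = x * (x ^ n - y ^ n) + (x - y) * y ^ n := by ring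
    have h2 : y ^ n ≤ 1 := pow_le_one₀ hy (hyx.trans hx)
    have h3 : 0 ≤ x ^ n - y ^ n := sub_nonneg.2 (pow_le_pow_left₀ hy hyx n)
    have h4 : x * (x ^ n - y ^ n) ≤ 1 * (x ^ n - y ^ n) := by gcongr
    have h5 : (x - y) * y ^ n ≤ (x - y) * 1 := by
      apply mul_le_mul_of_nonneg_left h2 (by linarith)
    push_cast
    linarith

lemma shell_measure (x0 : E) {ρ : ℝ} (hρ : 0 < ρ) {a b : ℝ} (ha : 0 ≤ a) (hab : a ≤ b)
    (hb : b ≤ 1 / 2) :
    volume {x : E | a < 1 - (ρ ^ 2)⁻¹ * ‖x - x0‖ ^ 2 ∧ 1 - (ρ ^ 2)⁻¹ * ‖x - x0‖ ^ 2 < b}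
      ≤ ENNReal.ofReal (ρ ^ (Module.finrank ℝ E) * (Module.finrank ℝ E) * (b - a))
        * volume (Metric.ball (0 : E) 1) := by
  set n := Module.finrank ℝ E
  have hA : 0 ≤ √(1 - a) := Real.sqrt_nonneg _
  have hB : 0 ≤ √(1 - b) := Real.sqrt_nonneg _
  have hAB : √(1 - b) ≤ √(1 - a) := Real.sqrt_le_sqrt (by linarith)
  have hA1 : √(1 - a) ≤ 1 := by
    rw [Real.sqrt_le_left (by norm_num)]; linarith
  have hA2 : √(1 - a) ^ 2 = 1 - a := Real.sq_sqrt (by linarith)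
  have hB2 : √(1 - b) ^ 2 = 1 - b := Real.sq_sqrt (by linarith)
  have hBh : 1 / 2 ≤ √(1 - b) := by
    apply Real.le_sqrt_of_sq_le; norm_num; linarith
  have hBpos : 0 < √(1 - b) := by linarith
  have hApos : 0 < √(1 - a) := by linarith
  have hdiff : √(1 - a) - √(1 - b) ≤ b - a := by nlinarith
  have hsub : {x : E | a < 1 - (ρ ^ 2)⁻¹ * ‖x - x0‖ ^ 2 ∧ 1 - (ρ ^ 2)⁻¹ * ‖x - x0‖ ^ 2 < b}
      ⊆ Metric.ball x0 (ρ * √(1 - a)) \ Metric.ball x0 (ρ * √(1 - b)) := by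
    rintro x ⟨h1, h2⟩
    have e1 : (ρ ^ 2)⁻¹ * ‖x - x0‖ ^ 2 = (‖x - x0‖ / ρ) ^ 2 := by
      field_simp
    rw [e1] at h1 h2
    constructor
    · rw [mem_ball_iff_norm]
      have : ‖x - x0‖ / ρ < √(1 - a) := by
        apply Real.lt_sqrt_of_sq_lt; linarith
      rwa [div_lt_iff₀ hρ, mul_comm] at this
    · rw [mem_ball_iff_norm, not_lt]
      have : √(1 - b) ≤ ‖x - x0‖ / ρ := by
        rw [Real.sqrt_le_left (by positivity)]; linarith
      rwa [le_div_iff₀ hρ, mul_comm] at this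
  refine (measure_mono hsub).trans ?_
  have hsub2 : Metric.ball x0 (ρ * √(1 - b)) ⊆ Metric.ball x0 (ρ * √(1 - a)) :=
    Metric.ball_subset_ball (by gcongr)
  rw [measure_sdiff hsub2 measurableSet_ball.nullMeasurableSet measure_ball_lt_top.ne,
    Measure.addHaar_ball_of_pos _ x0 (mul_pos hρ hApos), Measure.addHaar_ball_of_pos _ x0 (mul_pos hρ hBpos),
    ← ENNReal.sub_mul (fun _ _ => measure_ball_lt_top.ne), ← ENNReal.ofReal_sub _ (by positivity)]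
  gcongr
  rw [mul_pow, mul_pow, ← mul_sub, mul_assoc]
  gcongr
  exact (pow_sub_pow_le_mul hB hAB hA1 n).trans (by gcongr)

end Pool.Agent.H.MP_1d8377_an
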